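import Mathlib
import Pool.Agent.H.MP_0b1547_co.E

set_option autoImplicit false

namespace Pool.Agent.Results.MP_0b1547_co.NonReal

open Pool.Agent.H.MP_0b1547_co Polynomial

lemma root : ∃ z : ℂ, z.im ≠ 0 ∧
    z ^ 6 + 11 * z ^ 5 + 39 * z ^ 4 + 59 * z ^ 3 + 39 * z ^ 2 + 11 * z + 1 = 0 := by
  obtain ⟨r, ⟨_, r2⟩, hr⟩ : ∃ r ∈ Set.Icc (-3 : ℝ) (-83 / 40), r ^ 3 - r ^ 2 - 4 * r + 5 = 0 :=
    intermediate_value_Icc (f := fun r : ℝ => r ^ 3 - r ^ 2 - 4 * r + 5) (by norm_num) (by fun_prop)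
      ⟨by norm_num, by norm_num⟩
  have pos : 0 < 3 * r ^ 2 - 2 * r - 17 := by nlinarith
  obtain ⟨t, t0, ht⟩ : ∃ t : ℝ, t ≠ 0 ∧ t ^ 2 = 3 * r ^ 2 - 2 * r - 17 :=
    ⟨_, (Real.sqrt_pos.2 pos).ne', Real.sq_sqrt pos.le⟩
  set y : ℂ := (1 - r + t * Complex.I) / 2 - 4 with hy
  have yim : y.im = t / 2 := by simp [hy]
  have hc : y ^ 3 + 11 * y ^ 2 + 36 * y + 37 = 0 := by
    have h1 : (r : ℂ) ^ 3 - r ^ 2 - 4 * r + 5 = 0 := by exact_mod_cast hr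
    have h2 : (t : ℂ) ^ 2 = 3 * r ^ 2 - 2 * r - 17 := by exact_mod_cast ht
    have h3 : (y + 4) ^ 2 + (r - 1) * (y + 4) + (r ^ 2 - r - 4) = 0 := by
      rw [hy]
      linear_combination (-1 / 4) * h2 + (t ^ 2 / 4) * Complex.I_sq
    linear_combination (y + 4 - r) * h3 + h1
  obtain ⟨w, hw⟩ := IsAlgClosed.exists_pow_nat_eq (y ^ 2 - 4) (show 0 < 2 by norm_num)
  obtain ⟨z, hz⟩ : ∃ z : ℂ, z ^ 2 - y * z + 1 = 0 :=
    ⟨(y + w) / 2, by linear_combination (1 / 4) * hw⟩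
  refine ⟨z, fun h0 => ?_, ?_⟩
  · have a := congrArg Complex.im hz
    have b := congrArg Complex.re hz
    simp [sq, h0, yim, t0] at a b
    simp [a] at b
  · linear_combination z ^ 3 * hc + (((z ^ 2 + 1) ^ 2 + (z ^ 2 + 1) * (y * z) + (y * z) ^ 2) +
      11 * z * (z ^ 2 + 1 + y * z) + 36 * z ^ 2) * hz

theorem result : ∃ (M : Matroid (Fin 7)) (G : Set (Set (Fin 7))),
    M.E = Set.univ ∧ M.Loopless ∧ IsBuilding M G ∧ Module.Finite ℚ (Chow M G) ∧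
    Koszul (Chow M G) (piece M G 1) ∧
    ∃ H : ℚ[X], H ≠ 0 ∧ (∀ i, H.coeff i = (Module.finrank ℚ (piece M G i) : ℚ)) ∧
      ∃ z : ℂ, z.im ≠ 0 ∧ aeval z H = 0 := by
  have co : ∀ i, (X ^ 6 + C 11 * X ^ 5 + C 39 * X ^ 4 + C 59 * X ^ 3 + C 39 * X ^ 2 + C 11 * X ^ 1 +
      X ^ 0 : ℚ[X]).coeff i = (Module.finrank ℚ (piece M0 G0 i) : ℚ) := by
    intro i
    rw [piece_rank]
    simp only [coeff_add, coeff_C_mul, coeff_X_pow]
    by_cases h : i < 7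
    · interval_cases i <;> simp
    · rw [List.getD_eq_default _ _ (by simpa using h)]
      have : ∀ k < 7, ¬ i = k := fun k hk e => h (e ▸ hk)
      simp [this]
  refine ⟨M0, G0, rfl, ?_, building, inferInstance, koszul, _, fun h => ?_, co, ?_⟩
  · refine (Matroid.loopless_iff _).2 ?_
    rw [Matroid.loops, cl]
  · have := co 0
    rw [h, piece_rank] at this
    simp at this
  · obtain ⟨z, h1, h2⟩ := root
    refine ⟨z, h1, ?_⟩
    simpa using h2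

end Pool.Agent.Results.MP_0b1547_co.NonReal
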